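import Pool.Agent.KO.A.Spec

/-!
# Project KO, row B4: everything is algebraic over three independent elements
-/

set_option autoImplicit false

namespace Pool.Agent.KO

open MvPolynomial

namespace B4

variable {k : Type} [Field k] (t : k) [IsDomain (Raff t)]

/-- The map from the polynomials to the field of fractions. -/
noncomputable def e : MvPolynomial (Fin 4) k →ₐ[k] FractionRing (Raff t) :=
  (IsScalarTower.toAlgHom k (Raff t) (FractionRing (Raff t))).comp
    (Ideal.Quotient.mkₐ k (Ideal.span {gAff t}))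

theorem e_gAff : e t (gAff t) = 0 := by
  have h : (Ideal.Quotient.mkₐ k (Ideal.span {gAff t})) (gAff t) = 0 :=
    Ideal.Quotient.eq_zero_iff_mem.2 (Ideal.subset_span rfl)
  simp only [e, AlgHom.comp_apply, h, map_zero]

/-- The three generators. -/
noncomputable def s : Set (FractionRing (Raff t)) :=
  Set.range fun i : Fin 3 => e t (X i.castSucc)

theorem mem_s (i : Fin 3) : e t (X i.castSucc) ∈ Algebra.adjoin k (s t) :=
  Algebra.subset_adjoin ⟨i, rfl⟩

theorem sq_mem : e t (X 3) ^ 2 ∈ Algebra.adjoin k (s t) := by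
  have h := e_gAff t
  have h0 : e t (X 0) ∈ Algebra.adjoin k (s t) := mem_s t 0
  have h1 : e t (X 1) ∈ Algebra.adjoin k (s t) := mem_s t 1
  have h2 : e t (X 2) ∈ Algebra.adjoin k (s t) := mem_s t 2
  have hC : e t (C t) ∈ Algebra.adjoin k (s t) := by
    rw [← MvPolynomial.algebraMap_eq, AlgHom.commutes]
    exact Subalgebra.algebraMap_mem _ _
  simp only [gAff, map_sub, map_add, map_mul, map_pow, map_one] at h
  have h3 : e t (X 3) ^ 2 = -(e t (X 2) ^ 3 + e t (C t) * e t (X 1) ^ 11
      + e t (X 0) * e t (X 1) ^ 10 + e t (X 0) ^ 12 * e t (X 1) - 1 - e t (X 1) ^ 9) := by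
    linear_combination h
  rw [h3]
  refine neg_mem (sub_mem (sub_mem (add_mem (add_mem (add_mem (pow_mem h2 _)
    (mul_mem hC (pow_mem h1 _))) (mul_mem h0 (pow_mem h1 _))) (mul_mem (pow_mem h0 _) h1))
    (one_mem _)) (pow_mem h1 _))

theorem alg_X (i : Fin 4) : IsAlgebraic (Algebra.adjoin k (s t)) (e t (X i)) := by
  refine Fin.lastCases ?_ (fun j => ?_) i
  · have h3 : IsIntegral (Algebra.adjoin k (s t)) (e t (X 3)) := by
      refine ⟨Polynomial.X ^ 2 - Polynomial.C ⟨e t (X 3) ^ 2, sq_mem t⟩,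
        Polynomial.monic_X_pow_sub_C _ two_ne_zero, ?_⟩
      simp only [Polynomial.eval₂_sub, Polynomial.eval₂_pow, Polynomial.eval₂_X,
        Polynomial.eval₂_C]
      exact sub_self _
    exact h3.isAlgebraic
  · exact isAlgebraic_algebraMap (⟨e t (X j.castSucc), mem_s t j⟩ : Algebra.adjoin k (s t))

theorem alg_e (P : MvPolynomial (Fin 4) k) : IsAlgebraic (Algebra.adjoin k (s t)) (e t P) := by
  induction P using MvPolynomial.induction_on with
  | C c =>
    rw [← MvPolynomial.algebraMap_eq, AlgHom.commutes]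
    exact isAlgebraic_algebraMap (algebraMap k (Algebra.adjoin k (s t)) c)
  | add P Q hP hQ =>
    rw [map_add]
    exact hP.add hQ
  | mul_X P i hP =>
    rw [map_mul]
    exact hP.mul (alg_X t i)

theorem alg_E : Algebra.IsAlgebraic (Algebra.adjoin k (s t)) (FractionRing (Raff t)) := by
  refine ⟨fun z => ?_⟩
  obtain ⟨a, b, -, rfl⟩ := IsFractionRing.div_surjective (A := Raff t) z
  obtain ⟨P, rfl⟩ := Ideal.Quotient.mk_surjective a
  obtain ⟨Q, rfl⟩ := Ideal.Quotient.mk_surjective b
  rw [div_eq_mul_inv]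
  exact (alg_e t P).mul (alg_e t Q).inv

end B4

theorem sp_b4 : SpB4 := by
  intro k _ t _ φ hφ a
  have h1 := B4.alg_E t
  have h2 : Algebra.trdeg k (FractionRing (Raff t)) ≤ Cardinal.mk (Fin 3) :=
    (Algebra.IsAlgebraic.trdeg_le_cardinalMk k (B4.s t)).trans Cardinal.mk_range_le
  have h3 := (hφ.isTranscendenceBasis_of_trdeg_le_of_finite h2).isAlgebraic
  obtain ⟨p, hp, hpa⟩ := h3.isAlgebraic a
  have h4 : ∀ n, ∃ C : MvPolynomial (Fin 3) k, aeval φ C = (p.coeff n).1 := fun n => by
    have h5 : ∀ z ∈ Algebra.adjoin k (Set.range φ),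
        ∃ C : MvPolynomial (Fin 3) k, aeval φ C = z := fun z hz => by
      rw [Algebra.adjoin_range_eq_range_aeval] at hz
      exact hz
    exact h5 _ (p.coeff n).2
  choose C hC using h4
  refine ⟨p.natDegree, C, fun h => ?_, ?_⟩
  · have h5 := hC p.natDegree
    rw [h, map_zero] at h5
    apply Polynomial.leadingCoeff_ne_zero.2 hp
    exact Subtype.ext h5.symm
  · rw [Polynomial.aeval_eq_sum_range] at hpa
    rw [← hpa]
    refine Finset.sum_congr rfl fun n _ => ?_
    rw [hC]
    rfl

end Pool.Agent.KO
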