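import Pool.Agent.KO.A.Spec

/-!
# Project KO, block B: clearing denominators and homogenizing
-/

set_option autoImplicit false

open MvPolynomial

namespace Pool.Agent.KO.B5

/-- The general form of the row. -/
theorem gen {R K A E : Type} [CommRing R] [IsDomain R] [Field K] [Algebra R K] [IsFractionRing R K]
    [CommRing A] [Algebra K A] [Field E] [Algebra K E] [Algebra A E] [IsScalarTower K A E]
    (hinj : Function.Injective (algebraMap A E))
    (ι : MvPolynomial (Fin 4) R →+* A)
    (hι : ∀ c : R, ι (C c) = algebraMap K A (algebraMap R K c))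
    (N : ℕ) (s : Fin (N + 1) → MvPolynomial (Fin 4) R) (i : Fin 3 → Fin (N + 1))
    (j : Fin (N + 1)) (hj : ι (s j) ≠ 0)
    (hφ : AlgebraicIndependent K (fun l => algebraMap A E (ι (s (i l))) / algebraMap A E (ι (s j))))
    (a : MvPolynomial (Fin 4) R) (δ : ℕ) (Cc : ℕ → MvPolynomial (Fin 3) K) (hC : Cc δ ≠ 0)
    (h0 : ∑ n ∈ Finset.range (δ + 1), aeval (fun l => algebraMap A E (ι (s (i l))) /
      algebraMap A E (ι (s j))) (Cc n) * algebraMap A E (ι a) ^ n = 0) :
    ∃ (D : ℕ) (C' : ℕ → MvPolynomial (Fin (N + 1)) R), (∀ n, (C' n).IsHomogeneous D) ∧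
      ι (∑ n ∈ Finset.range (δ + 1), bind₁ s (C' n) * a ^ n) = 0 ∧ ι (bind₁ s (C' δ)) ≠ 0 := by
  classical
  set φ : Fin 3 → E := fun l => algebraMap A E (ι (s (i l))) / algebraMap A E (ι (s j)) with hφd
  -- a common denominator
  let T : Finset K := (Finset.range (δ + 1)).biUnion fun n =>
    (Cc n).support.image fun e => (Cc n).coeff e
  obtain ⟨c, hc⟩ := IsLocalization.exist_integer_multiples_of_finset (nonZeroDivisors R) T
  have hc' : ∀ x ∈ T, ∃ g : R, algebraMap R K g = algebraMap R K (c : R) * x := by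
    intro x hx
    obtain ⟨g, hg⟩ := hc x hx
    exact ⟨g, by rw [hg, Algebra.smul_def]⟩
  choose! g hg using hc'
  have hc0 : (c : R) ≠ 0 := nonZeroDivisors.ne_zero c.2
  let D : ℕ := (Finset.range (δ + 1)).sup fun n => (Cc n).totalDegree
  let C' : ℕ → MvPolynomial (Fin (N + 1)) R := fun n => if n ∈ Finset.range (δ + 1) then
    ∑ e ∈ (Cc n).support, C (g ((Cc n).coeff e)) * ((∏ l, X (i l) ^ e l) * X j ^ (D - e.sum fun _ m => m))
    else 0
  have hdeg : ∀ n ∈ Finset.range (δ + 1), ∀ e ∈ (Cc n).support, (e.sum fun _ m => m) ≤ D := by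
    intro n hn e he
    exact le_trans (MvPolynomial.le_totalDegree he)
      (Finset.le_sup (f := fun n => (Cc n).totalDegree) hn)
  have hsum : ∀ e : Fin 3 →₀ ℕ, (e.sum fun _ m => m) = ∑ l, e l := by
    intro e
    rw [Finsupp.sum_fintype]
    intro _; rfl
  let ψ : MvPolynomial (Fin 4) R →+* E := (algebraMap A E).comp ι
  have hψj : ψ (s j) ≠ 0 := by
    intro h
    apply hj
    apply hinj
    rw [map_zero]
    exact h
  have hψC : ∀ x : R, ψ (C x) = algebraMap K E (algebraMap R K x) := by
    intro x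
    change algebraMap A E (ι (C x)) = _
    rw [hι, ← IsScalarTower.algebraMap_apply]
  have key : ∀ n ∈ Finset.range (δ + 1), ψ (bind₁ s (C' n)) =
      algebraMap K E (algebraMap R K (c : R)) * ψ (s j) ^ D * aeval φ (Cc n) := by
    intro n hn
    have h1 : C' n = ∑ e ∈ (Cc n).support, C (g ((Cc n).coeff e)) *
        ((∏ l, X (i l) ^ e l) * X j ^ (D - e.sum fun _ m => m)) := by
      simp only [C', if_pos hn]
    rw [h1, map_sum, map_sum, aeval_def, eval₂_eq', Finset.mul_sum]
    apply Finset.sum_congr rfl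
    intro e he
    have hx : (Cc n).coeff e ∈ T := by
      simp only [T, Finset.mem_biUnion, Finset.mem_image]
      exact ⟨n, hn, e, he, rfl⟩
    have h2 : ψ (bind₁ s (C (g ((Cc n).coeff e)))) =
        algebraMap K E (algebraMap R K (c : R)) * algebraMap K E ((Cc n).coeff e) := by
      rw [bind₁_C_right, hψC, hg _ hx, map_mul]
    rw [map_mul, map_mul, h2, map_mul, map_mul, map_prod, map_prod, map_pow, map_pow,
      bind₁_X_right]
    have h3 : ∀ l, ψ (bind₁ s (X (i l) ^ e l)) = ψ (s j) ^ e l * φ l ^ e l := by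
      intro l
      rw [map_pow, map_pow, bind₁_X_right, ← mul_pow]
      congr 1
      change ψ (s (i l)) = ψ (s j) * (ψ (s (i l)) / ψ (s j))
      field_simp
    rw [Finset.prod_congr rfl fun l _ => h3 l, Finset.prod_mul_distrib, Finset.prod_pow_eq_pow_sum,
      hsum e]
    have h4 : ψ (s j) ^ D = ψ (s j) ^ (∑ l, e l) * ψ (s j) ^ (D - ∑ l, e l) := by
      rw [← pow_add]
      congr 1
      have := hdeg n hn e he
      rw [hsum e] at this
      omega
    rw [h4]
    ring
  refine ⟨D, C', ?_, ?_, ?_⟩
  · intro n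
    by_cases hn : n ∈ Finset.range (δ + 1)
    · simp only [C', if_pos hn]
      apply IsHomogeneous.sum
      intro e he
      have h5 : D = 0 + ((∑ l, e l) + (D - ∑ l, e l)) := by
        have := hdeg n hn e he
        rw [hsum e] at this
        omega
      rw [hsum e]
      conv => arg 2; rw [h5]
      apply (isHomogeneous_C _ _).mul
      apply IsHomogeneous.mul
      · apply IsHomogeneous.prod
        intro l _
        have := (isHomogeneous_X R (i l)).pow (e l)
        rwa [one_mul] at this
      · have := (isHomogeneous_X R j).pow (D - ∑ l, e l)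
        rwa [one_mul] at this
    · simp only [C', if_neg hn]
      exact isHomogeneous_zero _ _ _
  · apply hinj
    rw [map_zero]
    change ψ _ = 0
    rw [map_sum]
    have : ∀ n ∈ Finset.range (δ + 1), ψ (bind₁ s (C' n) * a ^ n) =
        algebraMap K E (algebraMap R K (c : R)) * ψ (s j) ^ D *
          (aeval φ (Cc n) * algebraMap A E (ι a) ^ n) := by
      intro n hn
      rw [map_mul, key n hn, map_pow]
      change _ * (algebraMap A E (ι a)) ^ n = _
      ring
    rw [Finset.sum_congr rfl this, ← Finset.mul_sum, h0, mul_zero]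
  · intro h
    have h6 : ψ (bind₁ s (C' δ)) = 0 := by
      change algebraMap A E _ = 0
      rw [h, map_zero]
    rw [key δ (by simp)] at h6
    have h7 : algebraMap K E (algebraMap R K (c : R)) ≠ 0 := by
      rw [Ne, map_eq_zero]
      intro h8
      exact hc0 ((IsFractionRing.injective R K) (by rw [h8, map_zero]))
    have h8 : aeval φ (Cc δ) ≠ 0 := by
      intro h9
      exact hC (hφ (by rw [map_zero]; exact h9))
    exact mul_ne_zero (mul_ne_zero h7 (pow_ne_zero _ hψj)) h8 h6

end Pool.Agent.KO.B5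

namespace Pool.Agent.KO

/-- Row B5. -/
theorem sp_b5 : SpB5 := by
  intro r _ _ N s i j hj hφ a δ Cc hC h0
  exact B5.gen (R := AnR r) (K := Kr r) (A := Raff (tK r)) (E := FractionRing (Raff (tK r)))
    (IsFractionRing.injective _ _) cls (fun c => by
      change Ideal.Quotient.mk _ (MvPolynomial.map _ (C c)) = _
      rw [MvPolynomial.map_C]
      rfl) N s i j hj hφ a δ Cc hC h0

end Pool.Agent.KO
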