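import Pool.Agent.KO.A.Spec

/-!
# Project KO, block B: algebraic independence (row B3)
-/

set_option autoImplicit false

namespace Pool.Agent.KO

open Set Filter Topology MvPolynomial

namespace B3

/-- Clearing the denominators of the coefficients. -/
theorem clear (r : ℝ) [Fact (0 < r)] (Q : MvPolynomial (Fin 3) (Kr r)) :
    ∃ c : AnR r, c ≠ 0 ∧ ∃ C : MvPolynomial (Fin 3) (AnR r),
      MvPolynomial.map (algebraMap (AnR r) (Kr r)) C =
        MvPolynomial.C (algebraMap (AnR r) (Kr r) c) * Q := by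
  classical
  obtain ⟨b, hb⟩ := IsLocalization.exist_integer_multiples_of_finset
    (nonZeroDivisors (AnR r)) (Q.support.image (fun a => Q.coeff a))
  have h1 : ∀ a ∈ Q.support, ∃ d : AnR r, algebraMap (AnR r) (Kr r) d =
      algebraMap (AnR r) (Kr r) (b : AnR r) * Q.coeff a := by
    intro a ha
    obtain ⟨d, hd⟩ := hb (Q.coeff a) (Finset.mem_image_of_mem _ ha)
    exact ⟨d, by rw [hd, Algebra.smul_def]⟩
  choose! d hd using h1
  refine ⟨b, nonZeroDivisors.coe_ne_zero b, ∑ a ∈ Q.support, monomial a (d a), ?_⟩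
  rw [map_sum]
  conv_rhs => rw [Q.as_sum, Finset.mul_sum]
  refine Finset.sum_congr rfl fun a ha => ?_
  rw [MvPolynomial.map_monomial, hd a ha, MvPolynomial.C_mul_monomial]

/-- A polynomial with analytic coefficients that vanishes near a point is zero. -/
theorem vanish (r : ℝ) (C : MvPolynomial (Fin 3) (AnR r)) (q0 : Fin 4 → ℂ) (h0 : ‖q0 3‖ < r)
    (h : ∀ᶠ q in 𝓝 q0, evQ C (fun l : Fin 3 => q l.castSucc) (q 3) = 0) : C = 0 := by
  have h1 : ∀ᶠ q in 𝓝 q0, ‖q 3‖ < r := by
    have hc : ContinuousAt (fun q : Fin 4 → ℂ => ‖q 3‖) q0 :=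
      (continuous_apply 3).norm.continuousAt
    exact hc.eventually_lt_const h0
  obtain ⟨ρ, hρ, hball⟩ := Metric.eventually_nhds_iff_ball.1 (h.and h1)
  have key : ∀ s : Metric.ball (0 : ℂ) r, s.1 ∈ Metric.ball (q0 3) ρ →
      MvPolynomial.map (evR s) C = 0 := by
    intro s hs
    refine MvPolynomial.funext_set (fun l : Fin 3 => Metric.ball (q0 l.castSucc) ρ)
      (fun l => infinite_of_mem_nhds (q0 l.castSucc) (Metric.ball_mem_nhds _ hρ)) ?_
    intro x hx
    let q : Fin 4 → ℂ := Fin.snoc (α := fun _ => ℂ) x s.1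
    have hq3 : q 3 = s.1 := Fin.snoc_last (α := fun _ => ℂ) _ _
    have hql : ∀ l : Fin 3, q l.castSucc = x l := fun l => Fin.snoc_castSucc (α := fun _ => ℂ) _ _ _
    have hq : q ∈ Metric.ball q0 ρ := by
      rw [Metric.mem_ball, dist_pi_lt_iff hρ]
      intro k
      refine Fin.lastCases ?_ (fun l => ?_) k
      · show dist (q 3) (q0 3) < ρ
        rw [hq3]
        exact hs
      · rw [hql]
        exact hx l (mem_univ l)
    obtain ⟨h2, h3⟩ := hball q hq
    have hfun : (fun l : Fin 3 => q l.castSucc) = x := funext hql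
    rw [hfun, evQ, dif_pos h3] at h2
    rw [map_zero, MvPolynomial.eval_map]
    have hsub : (⟨q 3, by simpa using h3⟩ : Metric.ball (0 : ℂ) r) = s := Subtype.ext hq3
    rw [hsub] at h2
    exact h2
  ext1 a
  rw [MvPolynomial.coeff_zero]
  obtain ⟨F, hF, hf⟩ := AnR.exists_fun (C.coeff a)
  have hF0 : ∀ z ∈ Metric.ball (0 : ℂ) r, F z = 0 := by
    intro z hz
    refine hF.eqOn_zero_of_preconnected_of_eventuallyEq_zero
      (convex_ball (0 : ℂ) r).isPreconnected (z₀ := q0 3) (by simpa using h0) ?_ hz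
    have hn : Metric.ball (q0 3) ρ ∩ Metric.ball (0 : ℂ) r ∈ 𝓝 (q0 3) :=
      (Metric.isOpen_ball.inter Metric.isOpen_ball).mem_nhds
        ⟨Metric.mem_ball_self hρ, by simpa using h0⟩
    filter_upwards [hn] with z hz
    have := key ⟨z, hz.2⟩ hz.1
    have h2 := congrArg (MvPolynomial.coeff a) this
    rw [MvPolynomial.coeff_map, MvPolynomial.coeff_zero] at h2
    have h3 : (C.coeff a).1 ⟨z, hz.2⟩ = 0 := h2
    rw [hf] at h3
    exact h3
  apply Subtype.ext
  funext z
  rw [hf]
  exact hF0 z.1 z.2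

theorem alg_id {L : Type} [Field L] (c X Y E : L) (hY : Y ≠ 0) :
    c * X * E = Y * E * (c * (X / Y)) := by
  field_simp

/-- `evP` is a ring homomorphism at a point over the disc. -/
theorem evP_eq {r : ℝ} (P : MvPolynomial (Fin 4) (AnR r)) (p : Fin 6 → ℂ) (h : ‖p 5‖ < r) :
    evP P p = eval₂Hom (evR (⟨p 5, by simpa using h⟩ : Metric.ball (0 : ℂ) r)) (affPt p) P := by
  rw [evP, evQ, dif_pos h]
  rfl

theorem analyticAt_vpt {v : Fin 4 → ℂ} {y : (Fin 4 → ℂ) → ℂ} (hy : AnalyticAt ℂ y v) :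
    AnalyticAt ℂ (fun v' => vpt v' (y v')) v := by
  rw [analyticAt_pi_iff]
  intro i
  have hp : ∀ k : Fin 4, AnalyticAt ℂ (fun v' : Fin 4 → ℂ => v' k) v := fun k =>
    (ContinuousLinearMap.proj (R := ℂ) (φ := fun _ : Fin 4 => ℂ) k).analyticAt v
  fin_cases i
  · exact analyticAt_const
  · exact hp 0
  · exact hp 1
  · exact hp 2
  · exact hy
  · exact hp 3

end B3

open B3 in
/-- Row B3. -/
theorem sp_b3 (he : EvFacts) (_hc : SpCls) (hz : SpZer) : SpB3 := by
  classical
  intro r hr hdom N s i j v y hy hev hinj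
  have hv := hev.self_of_nhds
  have hv5 : ‖v 3‖ < r := hv.1.2.2
  -- the coordinate functions
  set p : (Fin 4 → ℂ) → Fin 6 → ℂ := fun v' => vpt v' (y v') with hpdef
  have hpan : AnalyticAt ℂ p v := analyticAt_vpt hy
  have hp5 : ∀ v', p v' 5 = v' 3 := fun v' => rfl
  have hevan : ∀ k, AnalyticAt ℂ (fun v' => evP (s k) (p v')) v := fun k =>
    AnalyticAt.fun_comp (he.anP r (s k) (p v) hv5) hpan
  set φ : Fin 3 → (Fin 4 → ℂ) → ℂ := fun l v' => evP (s (i l)) (p v') / evP (s j) (p v') with hφ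
  have hφan : ∀ l, AnalyticAt ℂ (φ l) v := fun l => (hevan (i l)).div (hevan j) hv.2
  -- the map
  set Ψ : (Fin 4 → ℂ) → (Fin 4 → ℂ) := fun v' => Fin.snoc (α := fun _ => ℂ)
    (fun l => φ l v') (v' 3) with hΨ
  have hΨl : ∀ v' (l : Fin 3), Ψ v' l.castSucc = φ l v' := fun v' l =>
    Fin.snoc_castSucc (α := fun _ => ℂ) _ _ _
  have hΨ3 : ∀ v', Ψ v' 3 = v' 3 := fun v' => Fin.snoc_last (α := fun _ => ℂ) _ _
  have hΨan : AnalyticAt ℂ Ψ v := by
    rw [analyticAt_pi_iff]
    intro k
    refine Fin.lastCases ?_ (fun l => ?_) k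
    · have : (fun v' => Ψ v' (Fin.last 3)) = fun v' => v' 3 := funext hΨ3
      rw [this]
      exact (ContinuousLinearMap.proj (R := ℂ) (φ := fun _ : Fin 4 => ℂ) 3).analyticAt v
    · have : (fun v' => Ψ v' l.castSucc) = φ l := funext fun v' => hΨl v' l
      rw [this]
      exact hφan l
  have hΨinj : Function.Injective (fderiv ℂ Ψ v) := by
    rw [injective_iff_map_eq_zero]
    intro d hd
    have hcomp : ∀ k, fderiv ℂ (fun v' => Ψ v' k) v d = 0 := by
      intro k
      have h1 := (hasFDerivAt_pi'.1 hΨan.differentiableAt.hasFDerivAt k).fderiv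
      rw [h1, ContinuousLinearMap.comp_apply, hd, map_zero]
    refine hinj d (fun l => ?_) ?_
    · have := hcomp l.castSucc
      have h2 : (fun v' => Ψ v' l.castSucc) = φ l := funext fun v' => hΨl v' l
      rw [h2] at this
      exact this
    · have := hcomp 3
      have h2 : (fun v' => Ψ v' 3) = fun v' => v' 3 := funext hΨ3
      rw [h2] at this
      have h3 : fderiv ℂ (fun v' : Fin 4 → ℂ => v' 3) v =
          ContinuousLinearMap.proj (R := ℂ) (φ := fun _ : Fin 4 => ℂ) 3 :=
        (ContinuousLinearMap.proj (R := ℂ) (φ := fun _ : Fin 4 => ℂ) 3).fderiv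
      rw [h3] at this
      exact this
  have hΨsurj : (fderiv ℂ Ψ v).range = ⊤ := by
    rw [LinearMap.range_eq_top]
    exact (LinearMap.injective_iff_surjective (f := (fderiv ℂ Ψ v).toLinearMap)).1 hΨinj
  have hmap : Filter.map Ψ (𝓝 v) = 𝓝 (Ψ v) :=
    hΨan.hasStrictFDerivAt.map_nhds_eq_of_surj hΨsurj
  -- the denominators do not vanish
  have hsj : cls (s j) ≠ 0 := by
    intro h
    exact hv.2 (hz r (s j) h _ hv.1)
  set A := Raff (tK r) with hA
  set L := FractionRing A with hL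
  have hσ : Function.Injective (algebraMap A L) := IsFractionRing.injective A L
  have hsjL : algebraMap A L (cls (s j)) ≠ 0 := by
    rw [Ne, map_eq_zero_iff _ hσ]
    exact hsj
  rw [algebraicIndependent_iff]
  intro Q hQ
  obtain ⟨c, hc0, C, hC⟩ := clear r Q
  -- the relation over `AnR r`
  have hCQ : eval₂ ((algebraMap (Kr r) L).comp (algebraMap (AnR r) (Kr r)))
      (fun l => algebraMap A L (cls (s (i l))) / algebraMap A L (cls (s j))) C = 0 := by
    have h1 : aeval (R := Kr r) (fun l => algebraMap A L (cls (s (i l))) /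
        algebraMap A L (cls (s j))) (MvPolynomial.map (algebraMap (AnR r) (Kr r)) C) = 0 := by
      rw [hC, map_mul, hQ, mul_zero]
    rw [aeval_def, eval₂_map] at h1
    exact h1
  set D := C.totalDegree with hD
  let P : MvPolynomial (Fin 4) (AnR r) := ∑ a ∈ C.support, MvPolynomial.C (C.coeff a) *
    (∏ l, s (i l) ^ a l) * s j ^ (D - ∑ l, a l)
  have hdeg : ∀ a ∈ C.support, ∑ l, a l ≤ D := by
    intro a ha
    have := MvPolynomial.le_totalDegree ha
    rwa [Finsupp.sum_fintype _ _ (fun _ => rfl)] at this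
  have hclsC : ∀ f : AnR r, algebraMap A L (cls (MvPolynomial.C f)) =
      ((algebraMap (Kr r) L).comp (algebraMap (AnR r) (Kr r))) f := by
    intro f
    have h1 : cls (MvPolynomial.C f) = algebraMap (Kr r) A (algebraMap (AnR r) (Kr r) f) := by
      show (Ideal.Quotient.mk _) (MvPolynomial.map _ (MvPolynomial.C f)) = _
      rw [MvPolynomial.map_C]
      rfl
    rw [h1, RingHom.comp_apply]
    exact (IsScalarTower.algebraMap_apply (Kr r) A L _).symm
  have hP0 : cls P = 0 := by
    apply hσ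
    rw [map_zero, map_sum, map_sum]
    have h1 : ∀ a ∈ C.support, algebraMap A L (cls (MvPolynomial.C (C.coeff a) *
        (∏ l, s (i l) ^ a l) * s j ^ (D - ∑ l, a l))) =
        (algebraMap A L (cls (s j))) ^ D *
          (((algebraMap (Kr r) L).comp (algebraMap (AnR r) (Kr r))) (C.coeff a) *
          ∏ l, (algebraMap A L (cls (s (i l))) / algebraMap A L (cls (s j))) ^ a l) := by
      intro a ha
      rw [map_mul, map_mul, map_mul, map_mul, hclsC, map_prod, map_prod]
      simp only [map_pow, div_pow]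
      rw [Finset.prod_div_distrib, Finset.prod_pow_eq_pow_sum]
      obtain ⟨e, he'⟩ := Nat.exists_eq_add_of_le (hdeg a ha)
      rw [he', Nat.add_sub_cancel_left, pow_add]
      have h2 : algebraMap A L (cls (s j)) ^ (∑ l, a l) ≠ 0 := pow_ne_zero _ hsjL
      exact alg_id _ _ _ _ h2
    rw [Finset.sum_congr rfl h1, ← Finset.mul_sum, ← MvPolynomial.eval₂_eq', hCQ, mul_zero]
  -- evaluation
  have hvan : ∀ᶠ v' in 𝓝 v, evQ C (fun l : Fin 3 => Ψ v' l.castSucc) (Ψ v' 3) = 0 := by
    filter_upwards [hev] with v' hv'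
    have h5 : ‖p v' 5‖ < r := hv'.1.2.2
    have h1 := hz r P hP0 _ hv'.1
    rw [show vpt v' (y v') = p v' from rfl, evP_eq P (p v') h5] at h1
    have h2 : evQ C (fun l : Fin 3 => Ψ v' l.castSucc) (Ψ v' 3) =
        ∑ a ∈ C.support, evR (⟨p v' 5, by simpa using h5⟩ : Metric.ball (0 : ℂ) r) (C.coeff a) *
          ∏ l, φ l v' ^ a l := by
      rw [evQ, hΨ3, dif_pos (show ‖v' 3‖ < r from h5)]
      rw [MvPolynomial.eval₂_eq']
      simp only [hΨl]
      rfl
    rw [h2]
    set θ := eval₂Hom (evR (⟨p v' 5, by simpa using h5⟩ : Metric.ball (0 : ℂ) r)) (affPt (p v'))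
      with hθ
    have hθj : θ (s j) ≠ 0 := by
      rw [hθ, ← evP_eq (s j) (p v') h5]
      exact hv'.2
    have h3 : θ P = θ (s j) ^ D *
        ∑ a ∈ C.support, evR (⟨p v' 5, by simpa using h5⟩ : Metric.ball (0 : ℂ) r) (C.coeff a) *
          ∏ l, φ l v' ^ a l := by
      rw [map_sum, Finset.mul_sum]
      refine Finset.sum_congr rfl fun a ha => ?_
      have h4 : ∀ l, φ l v' = θ (s (i l)) / θ (s j) := by
        intro l
        simp only [hφ, hθ]
        rw [evP_eq _ (p v') h5, evP_eq _ (p v') h5]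
      simp only [h4]
      rw [map_mul, map_mul, map_prod, hθ, MvPolynomial.eval₂Hom_C, ← hθ]
      simp only [map_pow, div_pow]
      rw [Finset.prod_div_distrib, Finset.prod_pow_eq_pow_sum]
      obtain ⟨e, he'⟩ := Nat.exists_eq_add_of_le (hdeg a ha)
      rw [he', Nat.add_sub_cancel_left, pow_add]
      have h2 : θ (s j) ^ (∑ l, a l) ≠ 0 := pow_ne_zero _ hθj
      field_simp
    rw [h3] at h1
    rcases mul_eq_zero.1 h1 with h4 | h4
    · exact absurd h4 (pow_ne_zero D hθj)
    · exact h4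
  have hvan2 : ∀ᶠ q in 𝓝 (Ψ v), evQ C (fun l : Fin 3 => q l.castSucc) (q 3) = 0 := by
    rw [← hmap, Filter.eventually_map]
    exact hvan
  have hC0 : C = 0 := vanish r C (Ψ v) (by rw [hΨ3]; exact hv5) hvan2
  rw [hC0, map_zero] at hC
  have := mul_eq_zero.1 hC.symm
  rcases this with h | h
  · exfalso
    rw [MvPolynomial.C_eq_zero] at h
    exact hc0 ((IsFractionRing.injective (AnR r) (Kr r)) (by rw [h, map_zero]))
  · exact h

end Pool.Agent.KO
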