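import Pool.Agent.KO.A.Spec

/-!
# Project KO, block B, row B1: a point where the map is an immersion
-/

set_option autoImplicit false
set_option maxHeartbeats 400000

namespace Pool.Agent.KO.B1

open Set Filter Topology MvPolynomial

/-- The complement of a closed analytic subset is open. -/
theorem isOpen_diff {X : Type} [TopologicalSpace X] {O : Shf X}
    (hO : ∀ f x, O f x → ContinuousAt f x) {Ω A : Set X} (hΩ : IsOpen Ω) (hA : IsAn O Ω A) :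
    IsOpen (Ω \ A) := by
  rw [isOpen_iff_mem_nhds]
  rintro x ⟨hx, hxA⟩
  obtain ⟨V, hV, hxV, k, f, hf, hAV⟩ := hA.2 x hx
  have h1 : ∃ i, f i x ≠ 0 := by
    by_contra h
    push Not at h
    have h2 : x ∈ {y | y ∈ V ∧ ∀ i, f i y = 0} := ⟨hxV, h⟩
    rw [← hAV] at h2
    exact hxA h2.1
  obtain ⟨i, hi⟩ := h1
  have h2 : ∀ᶠ y in 𝓝 x, f i y ≠ 0 := (hO _ _ (hf i x hxV)).eventually_ne hi
  filter_upwards [h2, hΩ.mem_nhds hx, hV.mem_nhds hxV] with y h3 h4 h5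
  refine ⟨h4, fun h6 => h3 ?_⟩
  have h7 : y ∈ A ∩ V := ⟨h6, h5⟩
  rw [hAV] at h7
  exact h7.2 i

/-- The normalised representative, with `z = 1`. -/
noncomputable def nu (p : Fin 6 → ℂ) : Fin 6 → ℂ := act (p 0)⁻¹ p

theorem nu_self {p : Fin 6 → ℂ} (h : p 0 = 1) : nu p = p := by
  rw [nu, h, inv_one, act_one]

theorem continuousAt_nu {p : Fin 6 → ℂ} (h : p 0 ≠ 0) : ContinuousAt nu p := by
  have h1 : ContinuousAt (fun p : Fin 6 → ℂ => ((p 0)⁻¹, p)) p :=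
    ((continuous_apply 0).continuousAt.inv₀ h).prodMk continuousAt_id
  exact ContinuousAt.comp (f := fun p : Fin 6 → ℂ => ((p 0)⁻¹, p))
    (g := fun x : ℂ × (Fin 6 → ℂ) => act x.1 x.2) continuous_act.continuousAt h1

/-- The first point. -/
def p00 : Fin 6 → ℂ := ![1, 0, 0, 0, -1, 0]

section

variable {F : Flip} {r : ℝ} {N : ℕ} {S : Set (PN N × ℂ)} {b : Bimer F.O F.g r S}

/-- A good point. -/
theorem exists_pt (he : EvFacts) (hF : SpDenF) (hr : 0 < r) (xa : F.XaFacts) (σ : Sec F b) :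
    ∃ (j : Fin (N + 1)) (p : Flip.M1), p.1 0 = 1 ∧ p.1 4 ≠ 0 ∧ ‖p.1 5‖ < σ.r2 ∧
      evP (σ.s j) p.1 ≠ 0 ∧ F.pi1 p ∈ {x | ‖F.g x‖ < r} \ b.A := by
  have hr1 : 0 < σ.r1 := σ.pos1.out
  have hc0 : (0 : ℂ) ∈ Metric.ball (0 : ℂ) σ.r1 := by simpa using hr1
  obtain ⟨j, a, ha⟩ := σ.nz ⟨0, hc0⟩ (by simpa using σ.pos)
  have hV0 : p00 ∈ Vaff σ.r1 := by
    refine ⟨?_, ?_, ?_⟩
    · simp [G, p00]
    · simp [p00]
    · simpa [p00] using hr1
  have hcl := hF σ.r1 (σ.s j) (σ.nf j) ⟨0, hc0⟩ ⟨a, ha⟩ p00 hV0 (by simp [p00])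
  have hG0 : p00 ∉ Gam := by
    rintro ⟨-, -, -, h4⟩
    have h5 : (-1 : ℂ) = 1 := by simpa [p00] using h4
    norm_num at h5
  have hn1 : {p : Fin 6 → ℂ | p 4 ≠ 0} ∈ 𝓝 p00 :=
    (isOpen_ne_fun (continuous_apply 4) continuous_const).mem_nhds (by simp [p00])
  have hn2 : (Gam : Set (Fin 6 → ℂ))ᶜ ∈ 𝓝 p00 := isClosed_Gam.isOpen_compl.mem_nhds hG0
  obtain ⟨p', ⟨hp4, hpG⟩, hpV, hp5, hpe⟩ := mem_closure_iff_nhds.1 hcl _ (inter_mem hn1 hn2)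
  simp only at hp5
  have hp5r : ‖p' 5‖ < σ.r2 := by rw [hp5, norm_zero]; exact σ.pos
  have hp5r1 : ‖p' 5‖ < σ.r1 := hp5r.trans_le σ.le
  have hp0 : p' 0 = 1 := hpV.2.1
  -- the open conditions
  have hQ : ∀ᶠ q in 𝓝 p', q 4 ≠ 0 ∧ ‖q 5‖ < σ.r2 ∧ evP (σ.s j) q ≠ 0 := by
    have h1 : ∀ᶠ q : Fin 6 → ℂ in 𝓝 p', q 4 ≠ 0 :=
      (isOpen_ne_fun (continuous_apply 4) continuous_const).mem_nhds hp4
    have h2 : ∀ᶠ q : Fin 6 → ℂ in 𝓝 p', ‖q 5‖ < σ.r2 :=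
      (isOpen_lt (continuous_apply 5).norm continuous_const).mem_nhds hp5r
    have h3 : ∀ᶠ q : Fin 6 → ℂ in 𝓝 p', evP (σ.s j) q ≠ 0 :=
      (he.anP σ.r1 (σ.s j) p' hp5r1).continuousAt.eventually_ne hpe
    filter_upwards [h1, h2, h3] with q a b c using ⟨a, b, c⟩
  have hν : Tendsto nu (𝓝 p') (𝓝 p') := by
    have := continuousAt_nu (p := p') (by rw [hp0]; exact one_ne_zero)
    rwa [ContinuousAt, nu_self hp0] at this
  have hQν := hν.eventually hQ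
  have h0 : ∀ᶠ q : Fin 6 → ℂ in 𝓝 p', q 0 ≠ 0 :=
    (isOpen_ne_fun (continuous_apply 0) continuous_const).mem_nhds (by
      show p' 0 ≠ 0
      rw [hp0]; exact one_ne_zero)
  have hcone : p' ∈ Cone := ⟨hpV.1, ⟨0, by decide, by rw [hp0]; exact one_ne_zero⟩, by
    rw [hp5, norm_zero]; exact one_pos⟩
  set m' : Flip.M1 := ⟨p', hcone, hpG⟩ with hm'
  have hT : {m : Flip.M1 | m.1 0 ≠ 0 ∧ (nu m.1 4 ≠ 0 ∧ ‖nu m.1 5‖ < σ.r2 ∧
      evP (σ.s j) (nu m.1) ≠ 0)} ∈ 𝓝 m' := by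
    have h1 : Tendsto (Subtype.val : Flip.M1 → Fin 6 → ℂ) (𝓝 m') (𝓝 p') :=
      continuous_subtype_val.continuousAt
    filter_upwards [h1.eventually h0, h1.eventually hQν] with m a b using ⟨a, b⟩
  have himg := xa.top.open1.image_mem_nhds hT
  have hgm : ‖F.g (F.pi1 m')‖ < r := by
    show ‖p' 5‖ < r
    rw [hp5, norm_zero]
    exact hr
  have hclA := b.denseA hgm
  obtain ⟨x, ⟨m, ⟨hm0, hm4, hm5, hme⟩, rfl⟩, hxA⟩ := mem_closure_iff_nhds.1 hclA _ himg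
  have hl : (m.1 0)⁻¹ ≠ 0 := inv_ne_zero hm0
  refine ⟨j, ⟨nu m.1, (act_mem_Cone hl).2 m.2.1, fun h => m.2.2 ((act_mem_Gam hl).1 h)⟩,
    ?_, hm4, hm5, hme, ?_⟩
  · show nu m.1 0 = 1
    rw [nu, act_zero', inv_mul_cancel₀ hm0]
  · have : F.pi1 ⟨nu m.1, (act_mem_Cone hl).2 m.2.1, fun h => m.2.2 ((act_mem_Gam hl).1 h)⟩ =
        F.pi1 m := ((xa.rel.eq11 _ _).2 ⟨(m.1 0)⁻¹, hl, rfl⟩).symm
    rw [this]
    exact hxA

end

/-- The function with `y² = cb`, where `z = 1`. -/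
def cb (v : Fin 4 → ℂ) : ℂ :=
  1 + v 1 ^ 9 - v 2 ^ 3 - v 3 * v 1 ^ 11 - v 0 * v 1 ^ 10 - v 0 ^ 12 * v 1

theorem G_vpt (v : Fin 4 → ℂ) (y : ℂ) : G (vpt v y) = y ^ 2 - cb v := by
  simp only [G, vpt, cb, Matrix.cons_val]
  ring

theorem anC (i : Fin 4) (v : Fin 4 → ℂ) : AnalyticAt ℂ (fun v : Fin 4 → ℂ => v i) v :=
  (ContinuousLinearMap.proj (R := ℂ) (φ := fun _ : Fin 4 => ℂ) i).analyticAt v

theorem an_cb (v : Fin 4 → ℂ) : AnalyticAt ℂ cb v := by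
  have h0 := anC 0 v
  have h1 := anC 1 v
  have h2 := anC 2 v
  have h3 := anC 3 v
  exact ((((analyticAt_const.add (h1.pow 9)).sub (h2.pow 3)).sub (h3.mul (h1.pow 11))).sub
    (h0.mul (h1.pow 10))).sub ((h0.pow 12).mul h1)

/-- The square root of `cb` near a point where it is `a²`, `a ≠ 0`. -/
noncomputable def yy (a : ℂ) (v : Fin 4 → ℂ) : ℂ := a * (cb v / a ^ 2) ^ (2⁻¹ : ℂ)

theorem yy_sq {a : ℂ} (ha : a ≠ 0) (v : Fin 4 → ℂ) : yy a v ^ 2 = cb v := by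
  rw [yy, mul_pow, Complex.cpow_ofNat_inv_pow]
  field_simp

theorem yy_self {a : ℂ} (ha : a ≠ 0) {v : Fin 4 → ℂ} (h : cb v = a ^ 2) : yy a v = a := by
  rw [yy, h, div_self (pow_ne_zero 2 ha), Complex.one_cpow, mul_one]

theorem an_yy {a : ℂ} (ha : a ≠ 0) {v : Fin 4 → ℂ} (h : cb v = a ^ 2) :
    AnalyticAt ℂ (yy a) v := by
  have h1 : AnalyticAt ℂ (fun v => cb v / a ^ 2) v :=
    (an_cb v).div analyticAt_const (pow_ne_zero 2 ha)
  have h2 : AnalyticAt ℂ (fun v => (cb v / a ^ 2) ^ (2⁻¹ : ℂ)) v := by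
    refine h1.cpow analyticAt_const ?_
    rw [h, div_self (pow_ne_zero 2 ha)]
    exact Complex.one_mem_slitPlane
  exact analyticAt_const.mul h2

theorem an_vpt {y : (Fin 4 → ℂ) → ℂ} {v : Fin 4 → ℂ} (hy : AnalyticAt ℂ y v) :
    AnalyticAt ℂ (fun v' => vpt v' (y v')) v := by
  refine analyticAt_pi_iff.2 fun i => ?_
  fin_cases i
  · exact analyticAt_const
  · exact anC 0 v
  · exact anC 1 v
  · exact anC 2 v
  · exact hy
  · exact anC 3 v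

section

variable {F : Flip} {r : ℝ} {N : ℕ} {S : Set (PN N × ℂ)} {b : Bimer F.O F.g r S}

/-- The invariant functions `u / z⁵`, `w / z⁶`, `x / z²²`. -/
noncomputable def hk (k : Fin 3) (p : Fin 6 → ℂ) : ℂ :=
  p (![1, 2, 3] k) / p 0 ^ ((![5, 6, 22] : Fin 3 → ℕ) k)

theorem hk_act (k : Fin 3) (l : ℂ) (hl : l ≠ 0) (p : Fin 6 → ℂ) : hk k (act l p) = hk k p := by
  fin_cases k
  · show act l p 1 / act l p 0 ^ 5 = p 1 / p 0 ^ 5
    rw [act_zero', act_one', mul_pow, mul_div_mul_left _ _ (pow_ne_zero 5 hl)]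
  · show act l p 2 / act l p 0 ^ 6 = p 2 / p 0 ^ 6
    rw [act_zero', act_two', mul_pow, mul_div_mul_left _ _ (pow_ne_zero 6 hl)]
  · show act l p 3 / act l p 0 ^ 22 = p 3 / p 0 ^ 22
    rw [act_zero', act_three', mul_pow, mul_div_mul_left _ _ (pow_ne_zero 22 hl)]

theorem an_hk (k : Fin 3) {p : Fin 6 → ℂ} (hp : p 0 ≠ 0) : AnalyticAt ℂ (hk k) p := by
  have h : ∀ i : Fin 6, AnalyticAt ℂ (fun p : Fin 6 → ℂ => p i) p := fun i =>
    (ContinuousLinearMap.proj (R := ℂ) (φ := fun _ : Fin 6 => ℂ) i).analyticAt p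
  exact (h _).div ((h 0).pow _) (pow_ne_zero _ hp)

/-- Near the image of a point of `X` outside of `A`, the function `hk` is a holomorphic function
of the homogeneous coordinates and of `t`. -/
theorem exists_H (xa : F.XaFacts) (pf : PFacts N) (k : Fin 3) (p : Flip.M1) (hp0 : p.1 0 = 1)
    (hY : F.pi1 p ∈ {x | ‖F.g x‖ < r} \ b.A) (V : Fin (N + 1) → ℂ) (hV : V ≠ 0)
    (hmk : (b.e.toFun ⟨F.pi1 p, hY⟩).1.1 = Projectivization.mk ℂ V hV) :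
    ∃ (H : (Fin (N + 1) → ℂ) × ℂ → ℂ) (Ht : PN N × ℂ → ℂ), AnalyticAt ℂ H (V, p.1 5) ∧
      (∀ᶠ q in 𝓝 (V, p.1 5), ∀ h : q.1 ≠ 0, Ht (Projectivization.mk ℂ q.1 h, q.2) = H q) ∧
      ∀ᶠ p' in 𝓝 p.1, ∀ (hp' : p' ∈ Cone ∧ p' ∉ Gam)
        (hY' : F.pi1 ⟨p', hp'⟩ ∈ {x | ‖F.g x‖ < r} \ b.A),
          hk k p' = Ht (b.e.toFun ⟨F.pi1 ⟨p', hp'⟩, hY'⟩).1 := by
  have hinv : ∀ l : ℂ, l ≠ 0 → ∀ p, hk k (act l p) = hk k p := fun l hl p => hk_act k l hl p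
  have hO : F.O (F.desc1 (hk k)) (F.pi1 p) :=
    xa.desc.h1 (hk k) hinv p (an_hk k (by rw [hp0]; exact one_ne_zero))
  set x₀ : ↥({x | ‖F.g x‖ < r} \ b.A) := ⟨F.pi1 p, hY⟩ with hx₀
  set f : ↥({x | ‖F.g x‖ < r} \ b.A) → ℂ := fun x => F.desc1 (hk k) x.1 with hf
  have hres : res F.O ({x | ‖F.g x‖ < r} \ b.A) f x₀ :=
    ⟨F.desc1 (hk k), hO, Eventually.of_forall fun _ => rfl⟩
  set f' : ↥(S \ b.A') → ℂ := fun y => f (b.e.toHomeomorph.symm y) with hf'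
  have hff : f' ∘ b.e.toFun = f := by
    funext x
    show f (b.e.toHomeomorph.symm (b.e.toHomeomorph x)) = f x
    rw [Homeomorph.symm_apply_apply]
  obtain ⟨Ht, hHt, hev⟩ := (b.e.hol f' x₀).2 (by rw [hff]; exact hres)
  have hbase : (b.e.toFun x₀).1 = (Projectivization.mk ℂ V hV, p.1 5) :=
    Prod.ext hmk (b.base x₀)
  rw [hbase] at hHt
  obtain ⟨H, hH, hHev⟩ := (pf.test Ht V hV (p.1 5)).1 hHt
  refine ⟨H, Ht, hH, hHev, ?_⟩
  have hcont : Tendsto b.e.toFun (𝓝 x₀) (𝓝 (b.e.toFun x₀)) :=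
    b.e.toHomeomorph.continuous.continuousAt
  have h1 : ∀ᶠ x in 𝓝 x₀, f x = Ht (b.e.toFun x).1 := by
    filter_upwards [hcont.eventually hev] with x hx
    rw [← hx]
    exact (congrFun hff x).symm
  rw [nhds_subtype_eq_comap, eventually_comap] at h1
  have h2 : ∀ᶠ m in 𝓝 p, ∀ x : ↥({x | ‖F.g x‖ < r} \ b.A), x.1 = F.pi1 m →
      f x = Ht (b.e.toFun x).1 := xa.top.cont1.continuousAt.eventually h1
  rw [nhds_subtype_eq_comap, eventually_comap] at h2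
  filter_upwards [h2] with p' hp'' hp' hY'
  rw [← hp'' ⟨p', hp'⟩ rfl ⟨F.pi1 ⟨p', hp'⟩, hY'⟩ rfl]
  exact (xa.desc.v1 (hk k) hinv ⟨p', hp'⟩).symm

end

end Pool.Agent.KO.B1

namespace Pool.Agent.KO

open Set Filter Topology MvPolynomial B1

/-- **Row B1.** -/
theorem sp_b1 (he : EvFacts) (_hn : SpCls) (hF : SpDenF) (_hd : SpDen) : SpB1 := by
  intro F r N S b hr hr1 xa pf σ
  obtain ⟨j, p, hp0, hp4, hp5, hpe, hpY⟩ := exists_pt he hF hr xa σ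
  set v : Fin 4 → ℂ := ![p.1 1, p.1 2, p.1 3, p.1 5] with hv
  have hcb : cb v = p.1 4 ^ 2 := by
    have h1 : G p.1 = 0 := p.2.1.1
    unfold G at h1
    rw [hp0] at h1
    simp only [cb, hv, Matrix.cons_val]
    linear_combination -h1
  set y : (Fin 4 → ℂ) → ℂ := yy (p.1 4) with hy
  have hyv : y v = p.1 4 := yy_self hp4 hcb
  have hya : AnalyticAt ℂ y v := an_yy hp4 hcb
  set P : (Fin 4 → ℂ) → (Fin 6 → ℂ) := fun v' => vpt v' (y v') with hP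
  have hPa : AnalyticAt ℂ P v := an_vpt hya
  have hPv : P v = p.1 := by
    funext i
    fin_cases i
    · exact hp0.symm
    · rfl
    · rfl
    · rfl
    · exact hyv
    · rfl
  have hPG : ∀ v', G (P v') = 0 := fun v' => by
    show G (vpt v' (y v')) = 0
    rw [G_vpt, hy, yy_sq hp4, sub_self]
  have hPt : Tendsto P (𝓝 v) (𝓝 p.1) := by
    have := hPa.continuousAt
    rwa [ContinuousAt, hPv] at this
  have hr2 : σ.r2 ≤ σ.r1 := σ.le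
  have hr2r : σ.r2 ≤ r := σ.le.trans σ.le_r
  -- the open conditions
  have hQ : ∀ᶠ q in 𝓝 p.1, ‖q 5‖ < σ.r2 ∧ evP (σ.s j) q ≠ 0 ∧ q ∉ Gam := by
    have h2 : ∀ᶠ q : Fin 6 → ℂ in 𝓝 p.1, ‖q 5‖ < σ.r2 :=
      (isOpen_lt (continuous_apply 5).norm continuous_const).mem_nhds hp5
    have h3 : ∀ᶠ q : Fin 6 → ℂ in 𝓝 p.1, evP (σ.s j) q ≠ 0 :=
      (he.anP σ.r1 (σ.s j) p.1 (hp5.trans_le hr2)).continuousAt.eventually_ne hpe
    have h4 : ∀ᶠ q : Fin 6 → ℂ in 𝓝 p.1, q ∉ Gam := isClosed_Gam.isOpen_compl.mem_nhds p.2.2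
    filter_upwards [h2, h3, h4] with q a b c using ⟨a, b, c⟩
  have hQP := hPt.eventually hQ
  have hP0 : ∀ v', P v' 0 = 1 := fun v' => rfl
  have hgood : ∀ᶠ v' in 𝓝 v, (P v' ∈ Cone ∧ P v' ∉ Gam) ∧ ‖P v' 5‖ < σ.r2 ∧
      evP (σ.s j) (P v') ≠ 0 := by
    filter_upwards [hQP] with v' hv'
    refine ⟨⟨⟨hPG v', ⟨0, by decide, ?_⟩, ?_⟩, hv'.2.2⟩, hv'.1, hv'.2.1⟩
    · rw [hP0]
      exact one_ne_zero
    · exact hv'.1.trans_le (hr2r.trans hr1)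
  refine ⟨v, y, j, hya, ?_, ?_⟩
  · filter_upwards [hgood] with v' hv'
    exact ⟨⟨hPG v', hP0 v', hv'.2.1.trans_le hr2⟩, hv'.2.2⟩
  intro d hd0 hd3
  -- the quotients
  set Φ : (Fin 4 → ℂ) → Fin (N + 1) → ℂ := fun v' i => evP (σ.s i) (P v') / evP (σ.s j) (P v')
    with hΦ
  have han : ∀ i, AnalyticAt ℂ (fun v' => evP (σ.s i) (P v')) v := fun i => by
    have h1 := he.anP σ.r1 (σ.s i) p.1 (hp5.trans_le hr2)
    rw [← hPv] at h1
    exact h1.comp hPa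
  have hne : evP (σ.s j) (P v) ≠ 0 := by
    rw [hPv]
    exact hpe
  have hΦa : AnalyticAt ℂ Φ v := analyticAt_pi_iff.2 fun i => (han i).div (han j) hne
  have hΦj : ∀ v', evP (σ.s j) (P v') ≠ 0 → Φ v' ≠ 0 := fun v' h h0 => by
    have := congrFun h0 j
    simp only [hΦ, Pi.zero_apply, div_self h] at this
    exact one_ne_zero this
  -- the homogeneous coordinates of the image
  have hmap : ∀ v' (hc : P v' ∈ Cone ∧ P v' ∉ Gam), ‖P v' 5‖ < σ.r2 →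
      ∀ (hne' : evP (σ.s j) (P v') ≠ 0)
        (hY' : F.pi1 ⟨P v', hc⟩ ∈ {x | ‖F.g x‖ < r} \ b.A),
      (b.e.toFun ⟨F.pi1 ⟨P v', hc⟩, hY'⟩).1.1 =
        Projectivization.mk ℂ (Φ v') (hΦj v' hne') := by
    intro v' hc h5 hne' hY'
    have hev : ∀ i, evH σ.m (σ.s i) (P v') = evP (σ.s i) (P v') := fun i =>
      he.oneH _ _ _ _ (hP0 v')
    have hs : (fun i => evH σ.m (σ.s i) (P v')) ≠ 0 := fun h0 => by
      have := congrFun h0 j
      simp only [hev, Pi.zero_apply] at this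
      exact hne' this
    rw [σ.map ⟨P v', hc⟩ h5 hY' hs, Projectivization.mk_eq_mk_iff']
    refine ⟨evP (σ.s j) (P v'), ?_⟩
    funext i
    simp only [hΦ, Pi.smul_apply, smul_eq_mul, hev]
    field_simp
  have hYopen : IsOpen ({x | ‖F.g x‖ < r} \ b.A) := by
    refine isOpen_diff (O := F.O) xa.shf.cont ?_ b.anA
    have hg : Continuous F.g := continuous_iff_continuousAt.2 fun x => xa.shf.cont _ _ (xa.hol x)
    exact isOpen_lt hg.norm continuous_const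
  have hYev : ∀ᶠ p' in 𝓝 p.1, ∀ hp' : p' ∈ Cone ∧ p' ∉ Gam,
      F.pi1 ⟨p', hp'⟩ ∈ {x | ‖F.g x‖ < r} \ b.A := by
    have h1 : ∀ᶠ m in 𝓝 p, F.pi1 m ∈ {x | ‖F.g x‖ < r} \ b.A :=
      xa.top.cont1.continuousAt.eventually (hYopen.mem_nhds hpY)
    rw [nhds_subtype_eq_comap, eventually_comap] at h1
    filter_upwards [h1] with p' h2 hp'
    exact h2 ⟨p', hp'⟩ rfl
  have hΦd : HasFDerivAt Φ (fderiv ℂ Φ v) v := hΦa.differentiableAt.hasFDerivAt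
  have hΦ0 : fderiv ℂ Φ v d = 0 := by
    funext i
    have h1 := ((ContinuousLinearMap.proj (R := ℂ) (φ := fun _ : Fin (N + 1) => ℂ)
      i).hasFDerivAt.comp v hΦd).fderiv
    have h2 := hd0 i
    have h3 : fderiv ℂ (fun v' => evP (σ.s i) (vpt v' (y v')) /
        evP (σ.s j) (vpt v' (y v'))) v =
        (ContinuousLinearMap.proj (R := ℂ) (φ := fun _ : Fin (N + 1) => ℂ) i).comp
          (fderiv ℂ Φ v) := h1
    rw [h3] at h2
    exact h2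
  -- the coordinates
  have key : ∀ k : Fin 3, d (![0, 1, 2] k) = 0 := by
    intro k
    have hpc : P v ∈ Cone ∧ P v ∉ Gam := by
      rw [hPv]
      exact p.2
    have hpe' : p = ⟨P v, hpc⟩ := Subtype.ext hPv.symm
    have hY2 : F.pi1 ⟨P v, hpc⟩ ∈ {x | ‖F.g x‖ < r} \ b.A := by
      rw [← hpe']
      exact hpY
    have hmk := hmap v hpc (by rw [hPv]; exact hp5) hne hY2
    obtain ⟨H, Ht, hH, hHev, hk'⟩ := exists_H (b := b) xa pf k ⟨P v, hpc⟩ (hP0 v) hY2 (Φ v)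
      (hΦj v hne) hmk
    set Ψ : (Fin 4 → ℂ) → (Fin (N + 1) → ℂ) × ℂ := fun v' => (Φ v', v' 3) with hΨ
    have hΨd : HasFDerivAt Ψ ((fderiv ℂ Φ v).prod
        (ContinuousLinearMap.proj (R := ℂ) (φ := fun _ : Fin 4 => ℂ) 3)) v :=
      hΦd.prodMk (ContinuousLinearMap.proj (R := ℂ) (φ := fun _ : Fin 4 => ℂ) 3).hasFDerivAt
    have hΨv : Ψ v = (Φ v, P v 5) := rfl
    have hHd : HasFDerivAt H (fderiv ℂ H (Ψ v)) (Ψ v) := hH.differentiableAt.hasFDerivAt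
    have hcomp := hHd.comp v hΨd
    have heq : (fun v' : Fin 4 → ℂ => v' (![0, 1, 2] k)) =ᶠ[𝓝 v] H ∘ Ψ := by
      have hΨt : Tendsto Ψ (𝓝 v) (𝓝 (Φ v, P v 5)) := hΨd.continuousAt
      have h1 := hΨt.eventually hHev
      have hPt' : Tendsto P (𝓝 v) (𝓝 (P v)) := hPa.continuousAt
      have h2 := hPt'.eventually hk'
      have h3 := hPt.eventually hYev
      filter_upwards [h1, h2, h3, hgood] with v' a1 a2 a3 a4
      have hY' := a3 a4.1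
      have e1 := a2 a4.1 hY'
      have e2 := hmap v' a4.1 a4.2.1 a4.2.2 hY'
      have e3 : (b.e.toFun ⟨F.pi1 ⟨P v', a4.1⟩, hY'⟩).1 =
          (Projectivization.mk ℂ (Φ v') (hΦj v' a4.2.2), v' 3) :=
        Prod.ext e2 (b.base ⟨F.pi1 ⟨P v', a4.1⟩, hY'⟩)
      rw [e3, a1 (hΦj v' a4.2.2)] at e1
      rw [Function.comp_apply, ← e1]
      fin_cases k
      · show v' 0 = P v' 1 / P v' 0 ^ 5
        rw [hP0, one_pow, div_one]
        rfl
      · show v' 1 = P v' 2 / P v' 0 ^ 6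
        rw [hP0, one_pow, div_one]
        rfl
      · show v' 2 = P v' 3 / P v' 0 ^ 22
        rw [hP0, one_pow, div_one]
        rfl
    have hcong := hcomp.congr_of_eventuallyEq heq
    have huniq := hcong.unique (ContinuousLinearMap.proj (R := ℂ) (φ := fun _ : Fin 4 => ℂ)
      (![0, 1, 2] k)).hasFDerivAt
    have happ := congrArg (fun L : (Fin 4 → ℂ) →L[ℂ] ℂ => L d) huniq
    simp only [ContinuousLinearMap.comp_apply, ContinuousLinearMap.prod_apply,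
      ContinuousLinearMap.proj_apply, hΦ0, hd3] at happ
    rw [← happ]
    exact map_zero _
  funext i
  fin_cases i
  · exact key 0
  · exact key 1
  · exact key 2
  · exact hd3

end Pool.Agent.KO
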