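import Pool.Agent.KO.A.Spec

/-!
# Project KO, block B: assembly
-/

set_option autoImplicit false

namespace Pool.Agent.KO

open Set Filter Topology MvPolynomial

/-- **Assembly of block B.** -/
theorem sp_b (he : EvFacts) (hz : SpZer) (h1 : SpB1) (h2 : SpB2) (h3 : SpB3) (h4 : SpB4)
    (h5 : SpB5) (hX : ∀ F : Flip, F.XaFacts) (hP : ∀ N, PFacts N)
    (hd : ∀ (r : ℝ) [Fact (0 < r)], IsDomain (Raff (tK r))) : SpB := by
  intro F r N S b hr hr1 σ jj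
  have fact := σ.pos1
  have hdom := hd σ.r1
  obtain ⟨v, y, j, hy, hev, himm⟩ := h1 F r N S b hr hr1 (hX F) (hP N) σ
  obtain ⟨i, hi⟩ := h2 N (fun i => fderiv ℂ (fun v' => evP (σ.s i) (vpt v' (y v')) /
      evP (σ.s j) (vpt v' (y v'))) v) himm
  have hind := h3 σ.r1 N σ.s i j v y hy hev hi
  have hsj : cls (σ.s j) ≠ 0 := by
    intro h
    obtain ⟨hv1, hv2⟩ := hev.self_of_nhds
    exact hv2 (hz σ.r1 _ h _ hv1)
  obtain ⟨δ, C, hC, hrel⟩ := h4 (Kr σ.r1) (tK σ.r1) _ hind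
    (algebraMap (Raff (tK σ.r1)) (FractionRing (Raff (tK σ.r1))) (cls (X jj)))
  obtain ⟨D, C', hhom, hcl, hne⟩ := h5 σ.r1 N σ.s i j hsj hind (X jj) δ C hC hrel
  refine ⟨D, δ, C', hhom, ?_, hne⟩
  intro p hp
  have h6 := hz σ.r1 _ hcl p hp
  have h7 : ‖p 5‖ < σ.r1 := hp.2.2
  unfold evP evQ at h6
  rw [dif_pos h7, eval₂_sum] at h6
  rw [← h6]
  refine Finset.sum_congr rfl fun n _ => ?_
  rw [← he.bind, eval₂_mul, eval₂_pow, eval₂_X]
  unfold evP evQ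
  rw [dif_pos h7]

end Pool.Agent.KO
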