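import Pool.Agent.KO.A.Spec

/-!
# Project KO, block B, row B2: three of the linear forms are enough
-/

namespace Pool.Agent.KO

open Submodule Module

theorem sp_b2 : SpB2 := by
  intro N L h
  -- the hyperplane `d 3 = 0`
  set p : (Fin 4 → ℂ) →ₗ[ℂ] ℂ := LinearMap.proj 3 with hp
  set K : Submodule ℂ (Fin 4 → ℂ) := LinearMap.ker p with hK
  have hps : Function.Surjective p := LinearMap.proj_surjective 3
  have hfin : finrank ℂ K = 3 := by
    have h1 : finrank ℂ (LinearMap.range p) + finrank ℂ K = finrank ℂ (Fin 4 → ℂ) :=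
      LinearMap.finrank_range_add_finrank_ker p
    rw [LinearMap.range_eq_top.2 hps, finrank_top, finrank_self, finrank_fin_fun] at h1
    omega
  let F : Fin (N + 1) → Dual ℂ K := fun i => (L i).toLinearMap.comp K.subtype
  have hspan : span ℂ (Set.range F) = ⊤ := by
    apply span_eq_top_of_ne_zero
    intro z hz
    by_contra hcon
    push Not at hcon
    apply hz
    apply Subtype.ext
    refine h z (fun i => ?_) z.2
    exact hcon (F i) ⟨i, rfl⟩
  have hfr : finrank ℂ (span ℂ (Set.range F)) = 3 := by
    rw [hspan, finrank_top, Subspace.dual_finrank_eq, hfin]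
  obtain ⟨f, hf, hf', -⟩ := exists_fun_fin_finrank_span_eq ℂ (Set.range F)
  replace hf' := hf'.trans hspan
  choose i hi using hf
  refine ⟨fun j => i (Fin.cast hfr.symm j), fun d hd hd3 => ?_⟩
  have hdK : d ∈ K := hd3
  have hall : ∀ g ∈ (⊤ : Submodule ℂ (Dual ℂ K)), g ⟨d, hdK⟩ = 0 := by
    intro g hg
    rw [← hf'] at hg
    induction hg using span_induction with
    | mem x hx =>
      obtain ⟨j, rfl⟩ := hx
      rw [← hi j]
      exact hd (Fin.cast hfr j)
    | zero => rfl
    | add x y _ _ hx hy => rw [LinearMap.add_apply, hx, hy, add_zero]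
    | smul a x _ hx => rw [LinearMap.smul_apply, hx, smul_zero]
  have h0 : (⟨d, hdK⟩ : K) = 0 :=
    (forall_dual_apply_eq_zero_iff ℂ _).1 fun g => hall g mem_top
  exact congrArg Subtype.val h0

end Pool.Agent.KO
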